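import Pool.Agent.helper62.EN.SpecA

/-!
# MP_07c750, project EN, row MIS
-/

set_option autoImplicit false

open scoped Topology
open MeasureTheory Filter Set

namespace Pool.Agent.EN

theorem MIS_proof (h1 : BLK_stmt) (h2 : JEN_stmt) (h3 : HLG_stmt) : MIS_stmt := by
  intro X _ μ T p P m n hμ hT hP hm hn
  have a := h1 X μ T p P m n hμ hT hP hm
  have b := h2 X (fun i => μ.map (T^[i])) T p P m n
    (fun i => Measure.isProbabilityMeasure_map (hT.iterate i).aemeasurable) hn
  linarith

end Pool.Agent.EN
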