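import Pool.Agent.helper62.EN.SpecX

/-!
# MP_07c750, project EN, row XNB
-/

set_option autoImplicit false

open scoped MatrixGroups ContDiff Topology UpperHalfPlane ComplexConjugate
open UpperHalfPlane MeasureTheory Filter Set

namespace Pool.Agent.EN

theorem XNB_open (δ : ℝ) : IsOpen {h : SL(2, ℝ) | nr δ h} := by
  have h1 : {h : SL(2, ℝ) | nr δ h} =
      ⋂ i : Fin 2, ⋂ j : Fin 2, {h : SL(2, ℝ) | |h.1 i j - (1 : Matrix (Fin 2) (Fin 2) ℝ) i j| < δ} := by
    ext h
    simp only [nr, mem_setOf_eq, mem_iInter]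
  rw [h1]
  refine isOpen_iInter_of_finite fun i => isOpen_iInter_of_finite fun j => ?_
  refine isOpen_lt ?_ continuous_const
  have h2 : Continuous fun h : SL(2, ℝ) => h.1 i j :=
    (continuous_apply_apply i j).comp continuous_subtype_val
  exact (h2.sub continuous_const).abs

theorem XNB_proof (h1 : XFL_stmt) : XNB_stmt := by
  intro Γ δ x hδ
  obtain ⟨-, -, -, hop, hsur, -⟩ := h1 Γ
  obtain ⟨g0, hg0⟩ := hsur x
  have ho : IsOpen {g : SL(2, ℝ) | nr δ (g0⁻¹ * g)} :=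
    (XNB_open δ).preimage (continuous_const.mul continuous_id)
  have hm : x ∈ mkX Γ '' {g : SL(2, ℝ) | nr δ (g0⁻¹ * g)} := by
    refine ⟨g0, ?_, hg0⟩
    change nr δ (g0⁻¹ * g0)
    rw [inv_mul_cancel]
    intro i j
    simpa using hδ
  refine Filter.mem_of_superset ((hop _ ho).mem_nhds hm) ?_
  rintro y ⟨g, hg, rfl⟩
  exact ⟨g0, g0⁻¹ * g, hg, hg0.symm, by rw [mul_inv_cancel_left]⟩

end Pool.Agent.EN
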